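import Pool.Agent.H83.EQP.Targets

/-!
# Row PA6: the weight
-/

set_option autoImplicit false

namespace Pool.Agent.H97.EQ

open scoped BigOperators
open Pool.Agent.H92.EQ Pool.Agent.H83.EQP

theorem pf_PA6 : Pool.Agent.H83.EQP.T_PA6 := by
  intro N m h z r hm hr
  have hns : 0 ≤ nsq z := Finset.sum_nonneg fun i _ => sq_nonneg _
  have h1 : vv h m z = nv h m z ^ 2 := by
    unfold vv nv nrm
    rw [div_pow, ← pow_mul, mul_comm m 2, pow_mul, Real.sq_sqrt hns]
  have hnv : 0 ≤ nv h m z := by
    unfold nv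
    exact div_nonneg (norm_nonneg _) (pow_nonneg (Real.sqrt_nonneg _) _)
  have hs0 := Real.smoothTransition.nonneg (vv h m z / r ^ 2 - 1)
  have hs1 := Real.smoothTransition.le_one (vv h m z / r ^ 2 - 1)
  refine ⟨h1, ?_, ?_, ?_, ?_⟩
  · unfold Wt
    linarith
  · unfold Wt
    linarith
  · intro hle
    unfold Wt
    rw [Real.smoothTransition.zero_of_nonpos, sub_zero]
    have h2 : vv h m z ≤ r ^ 2 := by
      rw [h1]
      exact pow_le_pow_left₀ hnv hle 2
    have h3 : vv h m z / r ^ 2 ≤ 1 := by
      rw [div_le_one (by positivity)]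
      exact h2
    linarith
  · intro hle
    unfold Wt
    rw [Real.smoothTransition.one_of_one_le, sub_self]
    have h3 : 2 ≤ vv h m z / r ^ 2 := by
      rw [le_div_iff₀ (by positivity)]
      exact hle
    linarith

end Pool.Agent.H97.EQ
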