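import Pool.Agent.H83.EQP.Targets

/-!
# Row PB1: the polynomials are integral over the polynomials in `Φ`
-/

set_option autoImplicit false

namespace Pool.Agent.H97.EQ

open scoped BigOperators
open MvPolynomial
open Pool.Agent.H92.EQ Pool.Agent.H83.EQP

section hom

variable {L : ℕ} {k : Type} [Field k]

private theorem hc_mul (n y : ℕ) (a b : MvPolynomial (Fin L) k) (hb : b.IsHomogeneous y) :
    homogeneousComponent (n + y) (a * b) = homogeneousComponent n a * b := by
  conv_lhs => rw [← sum_homogeneousComponent a, Finset.sum_mul, map_sum]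
  have h1 : ∀ i, homogeneousComponent (n + y) (homogeneousComponent i a * b) =
      if i = n then homogeneousComponent n a * b else 0 := by
    intro i
    have h2 : homogeneousComponent i a * b ∈ homogeneousSubmodule (Fin L) k (i + y) :=
      (homogeneousComponent_isHomogeneous i a).mul hb
    rw [homogeneousComponent_of_mem h2]
    by_cases h : i = n
    · subst h
      rw [if_pos rfl, if_pos rfl]
    · rw [if_neg (by omega), if_neg h]
  rw [Finset.sum_congr rfl fun i _ => h1 i, Finset.sum_ite_eq' (Finset.range _) n]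
  split_ifs with h
  · rfl
  · rw [Finset.mem_range] at h
    rw [homogeneousComponent_eq_zero _ _ (by omega), zero_mul]

end hom

/-- a power of each variable lies in the ideal generated by `Φ` -/
private theorem pow_mem (N D : ℕ) (Φ : Fin N → MvPolynomial (Fin N) ℂ) (hΦ : IsH D Φ) :
    ∃ M : ℕ, 1 ≤ M ∧ ∀ i, (X i : MvPolynomial (Fin N) ℂ) ^ M ∈ Ideal.span (Set.range Φ) := by
  have h1 : ∀ i, ∃ n : ℕ, (X i : MvPolynomial (Fin N) ℂ) ^ n ∈ Ideal.span (Set.range Φ) := by
    intro i
    have h2 : (X i : MvPolynomial (Fin N) ℂ) ∈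
        vanishingIdeal ℂ (zeroLocus ℂ (Ideal.span (Set.range Φ))) := by
      rw [mem_vanishingIdeal_iff]
      intro x hx
      have h3 : x = 0 := by
        apply hΦ.nd
        funext j
        have h4 := hx (Φ j) (Ideal.subset_span ⟨j, rfl⟩)
        rw [aeval_eq_eval] at h4
        exact h4
      rw [h3, aeval_X]
      rfl
    rw [vanishingIdeal_zeroLocus_eq_radical] at h2
    exact h2
  choose n hn using h1
  refine ⟨∑ i, n i + 1, by omega, fun i => ?_⟩
  have h2 : n i ≤ ∑ i, n i + 1 :=
    (Finset.single_le_sum (f := n) (fun _ _ => Nat.zero_le _) (Finset.mem_univ i)).trans (by omega)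
  obtain ⟨c, hc⟩ := Nat.exists_eq_add_of_le h2
  rw [hc, pow_add]
  exact Ideal.mul_mem_right _ _ (hn i)

/-- finiteness of a ring homomorphism in terms of sums -/
private theorem finite_of_gen {A B : Type} [CommRing A] [CommRing B] (f : A →+* B) (s : Finset B)
    (h : ∀ b : B, b ∈ AddSubmonoid.closure {x : B | ∃ a : A, ∃ c ∈ s, x = f a * c}) :
    f.Finite := by
  letI : Algebra A B := f.toAlgebra
  refine ⟨⟨s, ?_⟩⟩
  rw [eq_top_iff]
  intro b _
  refine AddSubmonoid.closure_induction (fun x hx => ?_) (Submodule.zero_mem _)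
    (fun x y _ _ hx hy => Submodule.add_mem _ hx hy) (h b)
  obtain ⟨a, c, hc, rfl⟩ := hx
  exact Submodule.smul_mem _ a (Submodule.subset_span hc)

theorem pf_PB1 : T_PB1 := by
  classical
  intro N D Φ hD hΦ
  obtain ⟨M, hM1, hM⟩ := pow_mem N D Φ hΦ
  set f : MvPolynomial (Fin N) ℂ →+* MvPolynomial (Fin N) ℂ :=
    (bind₁ Φ : MvPolynomial (Fin N) ℂ →ₐ[ℂ] MvPolynomial (Fin N) ℂ).toRingHom with hf
  have hfX : ∀ j, f (X j) = Φ j := fun j => by
    rw [hf]
    exact bind₁_X_right Φ j
  have hfC : ∀ c : ℂ, f (C c) = C c := fun c => by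
    rw [hf]
    exact bind₁_C_right Φ c
  set K : ℕ := N * M + D with hK
  have hfin : ((fun m : Fin N →₀ ℕ => (monomial m (1 : ℂ))) '' {m | m.degree ≤ K}).Finite :=
    (Finsupp.finite_of_degree_le K).image _
  set s : Finset (MvPolynomial (Fin N) ℂ) := hfin.toFinset with hs
  have hsm : ∀ m : Fin N →₀ ℕ, m.degree ≤ K → monomial m (1 : ℂ) ∈ s := by
    intro m hm
    rw [hs, Set.Finite.mem_toFinset]
    exact ⟨m, hm, rfl⟩
  apply finite_of_gen f s
  set T : AddSubmonoid (MvPolynomial (Fin N) ℂ) := AddSubmonoid.closure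
    {x : MvPolynomial (Fin N) ℂ | ∃ a : MvPolynomial (Fin N) ℂ, ∃ c ∈ s, x = f a * c} with hT
  have hmul : ∀ (a x : MvPolynomial (Fin N) ℂ), x ∈ T → f a * x ∈ T := by
    intro a x hx
    refine AddSubmonoid.closure_induction (fun x hx => ?_) ?_ (fun x y _ _ hx hy => ?_) hx
    · obtain ⟨a', c, hc, rfl⟩ := hx
      exact AddSubmonoid.subset_closure ⟨a * a', c, hc, by rw [map_mul, mul_assoc]⟩
    · rw [mul_zero]
      exact T.zero_mem
    · rw [mul_add]
      exact T.add_mem hx hy
  have hsupp : ∀ P : MvPolynomial (Fin N) ℂ, (∀ m ∈ P.support, monomial m (1 : ℂ) ∈ T) →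
      P ∈ T := by
    intro P hP
    rw [P.as_sum]
    refine T.sum_mem fun m hm => ?_
    have h1 : monomial m (coeff m P) = f (C (coeff m P)) * monomial m (1 : ℂ) := by
      rw [hfC, C_mul_monomial, mul_one]
    rw [h1]
    exact hmul _ _ (hP m hm)
  have hmon : ∀ e : ℕ, ∀ m : Fin N →₀ ℕ, m.degree = e → monomial m (1 : ℂ) ∈ T := by
    intro e
    induction e using Nat.strong_induction_on with
    | _ e ih =>
      intro m hm
      rcases Nat.lt_or_ge K e with he | he
      swap
      · exact AddSubmonoid.subset_closure ⟨1, monomial m 1, hsm m (hm ▸ he), by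
          rw [map_one f, one_mul]⟩
      obtain ⟨i, hi⟩ : ∃ i, M ≤ m i := by
        by_contra hcon
        push Not at hcon
        have h1 : m.degree ≤ N * M := by
          rw [Finsupp.degree_eq_sum]
          calc ∑ i, m i ≤ ∑ _i : Fin N, M := Finset.sum_le_sum fun i _ => (hcon i).le
            _ = N * M := by simp
        omega
      have h1 := hM i
      rw [Ideal.mem_span_range_iff_exists_fun] at h1
      obtain ⟨q, hq⟩ := h1
      set m' : Fin N →₀ ℕ := m - Finsupp.single i M with hm'
      have hmm : m' + Finsupp.single i M = m := by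
        ext j
        rw [hm', Finsupp.add_apply, Finsupp.tsub_apply]
        by_cases hij : i = j
        · subst hij
          rw [Finsupp.single_eq_same]
          omega
        · rw [Finsupp.single_apply, if_neg hij]
          omega
      have h2 : monomial m (1 : ℂ) = ∑ j, (monomial m' (1 : ℂ) * q j) * Φ j := by
        have h3 : monomial m (1 : ℂ) = monomial m' 1 * X i ^ M := by
          rw [X_pow_eq_monomial, monomial_mul, hmm, mul_one]
        rw [h3, ← hq, Finset.mul_sum]
        exact Finset.sum_congr rfl fun j _ => by ring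
      have h4 : monomial m (1 : ℂ) ∈ homogeneousSubmodule (Fin N) ℂ e := by
        rw [mem_homogeneousSubmodule]
        exact isHomogeneous_monomial 1 hm
      have h5 := homogeneousComponent_of_mem (m := e) h4
      rw [if_pos rfl] at h5
      rw [← h5, h2, map_sum]
      refine T.sum_mem fun j _ => ?_
      have h6 : e = (e - D) + D := by omega
      rw [h6, hc_mul _ _ _ _ (hΦ.hom j), mul_comm, ← hfX j]
      apply hmul
      apply hsupp
      intro t ht
      have h7 : t.degree = e - D := by
        rw [mem_support_iff, coeff_homogeneousComponent] at ht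
        by_contra hne
        exact ht (if_neg hne)
      exact ih (e - D) (by omega) t h7
  intro b
  exact hsupp b fun m _ => hmon _ m rfl

end Pool.Agent.H97.EQ
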